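import Mathlib
import Pool.Agent.H32BU.All

/-!
# Varieties of groups whose `d`-generated members are finite, `d ≥ 3`
-/

set_option autoImplicit false

namespace Pool.Agent.Results.MP_01f347_al.ThreeGenerated

/-- Let `d ≥ 3`, `n ≥ 1`, and let `V` be a variety (given by the laws `L`) of groups satisfying
`x ^ n = 1` in which every `d`-generated group is finite. Suppose that `n` has at most two prime
divisors or that every `d`-generated group in `V` is soluble, and that for every prime power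
`p ^ k > 4` dividing `n` the groups in `V` of exponent dividing `p ^ k` are locally finite. Then
`V` is locally finite. (For `n = 12` only the finiteness of the `d`-generated groups is left.) -/
theorem result (d : ℕ) (hd : 3 ≤ d) (L : Set (FreeGroup ℕ)) (n : ℕ) (hn : 1 ≤ n)
    (hexp : ∀ (G : Type) [Group G], (∀ f : FreeGroup ℕ →* G, ∀ w ∈ L, f w = 1) →
      ∀ x : G, x ^ n = 1)
    (hfin : ∀ (G : Type) [Group G], (∀ f : FreeGroup ℕ →* G, ∀ w ∈ L, f w = 1) →
      (∃ s : Fin d → G, Subgroup.closure (Set.range s) = ⊤) → Finite G)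
    (hsol : n.primeFactors.card ≤ 2 ∨
      ∀ (G : Type) [Group G], (∀ f : FreeGroup ℕ →* G, ∀ w ∈ L, f w = 1) →
        (∃ s : Fin d → G, Subgroup.closure (Set.range s) = ⊤) → Group.IsSolvable G)
    (hloc : ∀ p k : ℕ, p.Prime → p ^ k ∣ n → 4 < p ^ k →
      ∀ (G : Type) [Group G], (∀ f : FreeGroup ℕ →* G, ∀ w ∈ L, f w = 1) →
        (∀ x : G, x ^ p ^ k = 1) → Group.FG G → Finite G) :
    ∀ (G : Type) [Group G], (∀ f : FreeGroup ℕ →* G, ∀ w ∈ L, f w = 1) →
      Group.FG G → Finite G :=
  Pool.Agent.H32BU.vfinal2 Pool.Agent.H32BU.x_INDV Pool.Agent.H32BU.x_SOLH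
    Pool.Agent.H32BU.x_MAPS Pool.Agent.H32BU.x_LFD Pool.Agent.H32BU.x_L34
    Pool.Agent.H32BU.x_BUR Pool.Agent.H32BU.x_CRD d hd L n hn hexp hfin hsol hloc

end Pool.Agent.Results.MP_01f347_al.ThreeGenerated
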